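import Pool.Agent.Y552.SJ.Stm2

/-!
# SJ-STO2: factorisation of a nonnegative matrix over `S` through a stochastic one
-/

set_option autoImplicit false

namespace Pool.Agent.Y239.SJ.Sto2

open Matrix Finset

/-- A subring of `ℝ` larger than `ℤ` is dense. -/
lemma dens (S : Subring ℝ) (hS : S ≠ ⊥) (a b : ℝ) (hab : a < b) :
    ∃ s ∈ S, a < s ∧ s < b := by
  rcases AddSubgroup.dense_or_cyclic S.toAddSubgroup with h | ⟨c, hc⟩
  · obtain ⟨s, hs, h1⟩ := h.exists_between hab
    exact ⟨s, hs, h1⟩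
  · exfalso
    apply hS
    have hm : ∀ x : ℝ, x ∈ S ↔ ∃ k : ℤ, (k : ℝ) * c = x := by
      intro x
      have h1 : x ∈ S ↔ x ∈ S.toAddSubgroup := Iff.rfl
      rw [h1, hc, ← AddSubgroup.zmultiples_eq_closure, AddSubgroup.mem_zmultiples_iff]
      simp only [zsmul_eq_mul]
    obtain ⟨n, hn⟩ := (hm 1).1 S.one_mem
    have hc0 : c ≠ 0 := by
      rintro rfl
      simp at hn
    have hcS : c ∈ S := (hm c).2 ⟨1, by simp⟩
    obtain ⟨m, hm1⟩ := (hm (c * c)).1 (S.mul_mem hcS hcS)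
    have hcm : (m : ℝ) = c := mul_right_cancel₀ hc0 hm1
    rw [eq_bot_iff]
    intro x hx
    obtain ⟨k, hk⟩ := (hm x).1 hx
    rw [Subring.mem_bot]
    exact ⟨k * m, by push_cast; rw [hcm, hk]⟩

/-- approximation of a vector on the hyperplane by vectors over `S` -/
lemma approx (S : Subring ℝ) (hS : S ≠ ⊥) {q : ℕ} (v w p : Fin q → ℝ) (hv : ∀ i, v i ∈ S)
    (hv0 : ∀ i, 0 < v i) (hw : ∀ j, w j ∈ S) (hpw : ∀ j, p j = 0 → w j = 0)
    (hw1 : ∑ j, w j * v j = 1) (hp : ∑ j, p j * v j = 1) (η : ℝ) (hη : 0 < η) :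
    ∃ g : Fin q → ℝ, (∀ j, g j ∈ S) ∧ (∀ j, p j = 0 → g j = 0) ∧ ∑ j, g j * v j = 1 ∧
      ∀ j, |g j - p j| < η := by
  set A := ∑ j, v j with hA
  set B := ∑ j, |w j| with hB
  have hA0 : 0 ≤ A := sum_nonneg fun j _ => (hv0 j).le
  have hB0 : 0 ≤ B := sum_nonneg fun j _ => abs_nonneg _
  have hAB : 0 < 1 + A * B := by positivity
  set δ := η / (1 + A * B) with hδ
  have hδ0 : 0 < δ := div_pos hη hAB
  have hδ1 : δ * (1 + A * B) = η := by rw [hδ]; field_simp
  have h1 : ∀ j, ∃ c : ℝ, c ∈ S ∧ (p j = 0 → c = 0) ∧ |c - p j| < δ := by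
    intro j
    by_cases hj : p j = 0
    · exact ⟨0, S.zero_mem, fun _ => rfl, by rw [hj]; simpa using hδ0⟩
    · obtain ⟨c, hc, h2, h3⟩ := dens S hS (p j - δ) (p j + δ) (by linarith)
      exact ⟨c, hc, fun h4 => absurd h4 hj, by rw [abs_lt]; constructor <;> linarith⟩
  choose c hcS hc0 hcδ using h1
  set e := ∑ j, c j * v j - 1 with he
  have heS : e ∈ S := S.sub_mem (S.sum_mem fun j _ => S.mul_mem (hcS j) (hv j)) S.one_mem
  have heA : |e| ≤ δ * A := by
    have h2 : e = ∑ j, (c j - p j) * v j := by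
      rw [he, ← hp, ← sum_sub_distrib]
      exact sum_congr rfl fun j _ => by ring
    rw [h2, hA, mul_sum]
    refine (abs_sum_le_sum_abs _ _).trans (sum_le_sum fun j _ => ?_)
    rw [abs_mul, abs_of_pos (hv0 j)]
    exact mul_le_mul_of_nonneg_right (hcδ j).le (hv0 j).le
  refine ⟨fun j => c j - e * w j, fun j => S.sub_mem (hcS j) (S.mul_mem heS (hw j)), ?_, ?_, ?_⟩
  · intro j hj
    show c j - e * w j = 0
    rw [hc0 j hj, hpw j hj, mul_zero, sub_zero]
  · have h2 : ∑ j, (c j - e * w j) * v j = ∑ j, c j * v j - e * ∑ j, w j * v j := by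
      rw [mul_sum, ← sum_sub_distrib]
      exact sum_congr rfl fun j _ => by ring
    rw [h2, hw1, he]
    ring
  · intro j
    have h2 : c j - e * w j - p j = (c j - p j) - e * w j := by ring
    have h3 : |e * w j| ≤ δ * A * B := by
      rw [abs_mul]
      have h4 : |w j| ≤ B := single_le_sum (f := fun j => |w j|) (fun i _ => abs_nonneg _)
        (mem_univ j)
      exact mul_le_mul heA h4 (abs_nonneg _) (by positivity)
    show |c j - e * w j - p j| < η
    rw [h2]
    calc |c j - p j - e * w j| ≤ |c j - p j| + |e * w j| := abs_sub _ _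
      _ < δ + δ * A * B := add_lt_add_of_lt_of_le (hcδ j) h3
      _ = η := by rw [← hδ1]; ring

/-- one row -/
lemma row (S : Subring ℝ) (hS : S ≠ ⊥) {q : ℕ} (v w m : Fin q → ℝ) (hv : ∀ i, v i ∈ S)
    (hv0 : ∀ i, 0 < v i) (hm0 : ∀ j, 0 ≤ m j)
    (hw : ∀ j, w j ∈ S) (hpw : ∀ j, m j = 0 → w j = 0) (hw1 : ∑ j, w j * v j = 1)
    (r : ℝ) (hr : 0 < r) (hmr : ∑ j, m j * v j = r) (K : ℕ) :
    ∃ g : Fin q → ℝ, (∀ j, g j ∈ S) ∧ ∑ j, g j * v j = 1 ∧ (∀ j, 0 ≤ g j) ∧
      (∀ j, 0 ≤ g j + K * (m j - r * g j)) ∧ (∀ j, 0 ≤ g j + (m j - r * g j)) := by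
  have hp : ∑ j, m j / r * v j = 1 := by
    have h1 : ∑ j, m j / r * v j = (∑ j, m j * v j) / r := by
      rw [sum_div]
      exact sum_congr rfl fun j _ => by ring
    rw [h1, hmr, div_self hr.ne']
  obtain ⟨b, hb0, hb⟩ : ∃ b : ℝ, 0 < b ∧ ∀ j, m j ≠ 0 → b ≤ m j / r := by
    refine ⟨1 / (1 + ∑ j, (m j / r)⁻¹), ?_, ?_⟩
    · have : 0 ≤ ∑ j, (m j / r)⁻¹ := sum_nonneg fun j _ => inv_nonneg.2
        (div_nonneg (hm0 j) hr.le)
      positivity
    · intro j hj
      have h0 : 0 < m j / r := div_pos (lt_of_le_of_ne (hm0 j) (Ne.symm hj)) hr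
      have h1 : (m j / r)⁻¹ ≤ ∑ j, (m j / r)⁻¹ := single_le_sum (f := fun j => (m j / r)⁻¹)
        (fun i _ => inv_nonneg.2 (div_nonneg (hm0 i) hr.le)) (mem_univ j)
      have h2 : 0 < (m j / r)⁻¹ := inv_pos.2 h0
      rw [one_div]
      refine inv_le_of_inv_le₀ h0 ?_
      linarith
  have hK : (0 : ℝ) ≤ K := Nat.cast_nonneg K
  have hd : 0 < 1 + (K + 1) * r := by positivity
  obtain ⟨g, g1, g2, g3, g4⟩ := approx S hS v w (fun j => m j / r) hv hv0 hw
    (fun j hj => hpw j (by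
      rcases div_eq_zero_iff.1 hj with h | h
      · exact h
      · exact absurd h hr.ne')) hw1 hp (b / (1 + (K + 1) * r)) (div_pos hb0 hd)
  have hzero : ∀ j, m j = 0 → g j = 0 := fun j hj => g2 j (by rw [hj, zero_div])
  have key : ∀ j, ∀ t : ℝ, 0 ≤ t → t ≤ K + 1 → 0 ≤ g j + t * (m j - r * g j) := by
    intro j t ht0 ht1
    by_cases hj : m j = 0
    · rw [hzero j hj, hj]
      simp
    · have h1 := g4 j
      have h2 := hb j hj
      set η := b / (1 + (K + 1) * r) with hη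
      have hη1 : η * (1 + (K + 1) * r) = b := by rw [hη]; field_simp
      have hη0 : 0 < η := div_pos hb0 hd
      have h3 : m j - r * g j = - (r * (g j - m j / r)) := by
        field_simp
        ring
      rw [abs_lt] at h1
      have h4 : r * (g j - m j / r) ≤ r * η := mul_le_mul_of_nonneg_left h1.2.le hr.le
      have h5 : t * (r * (g j - m j / r)) ≤ t * (r * η) := mul_le_mul_of_nonneg_left h4 ht0
      have h6 : t * (r * η) ≤ (K + 1) * (r * η) :=
        mul_le_mul_of_nonneg_right ht1 (by positivity)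
      rw [h3]
      nlinarith [h1.1, h5, h6, h2, hη1]
  refine ⟨g, g1, g3, fun j => ?_, fun j => ?_, fun j => ?_⟩
  · have := key j 0 le_rfl (by linarith)
    simpa using this
  · exact key j K hK (by linarith)
  · have := key j 1 zero_le_one (by linarith)
    simpa using this

/-- the step of the unit -/
lemma exK (s : ℝ) (hs : 0 < s) (hs1 : s < 1) : ∃ K : ℕ, 0 < 1 - K * s ∧ 1 - K * s ≤ s := by
  have h1 : 0 < ⌈1 / s⌉₊ := Nat.ceil_pos.2 (by positivity)
  refine ⟨⌈1 / s⌉₊ - 1, ?_, ?_⟩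
  · have h2 : ((⌈1 / s⌉₊ - 1 : ℕ) : ℝ) < 1 / s := by
      rw [Nat.cast_pred h1]
      linarith [Nat.ceil_lt_add_one (a := 1 / s) (by positivity)]
    rw [lt_div_iff₀ hs] at h2
    linarith
  · have h2 : 1 / s ≤ ((⌈1 / s⌉₊ - 1 : ℕ) : ℝ) + 1 := by
      rw [Nat.cast_pred h1]
      linarith [Nat.le_ceil (1 / s)]
    rw [div_le_iff₀ hs] at h2
    linarith

theorem main : Pool.Agent.Y552.SJ.S_STO2 := by
  intro S hS q M v hM hM0 hv hv0 hMv hw
  -- the small element
  obtain ⟨s, hsS, hs0, hs1⟩ := dens S hS 0 (1 / (1 + ∑ k, 2 / v k)) (by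
    have : 0 ≤ ∑ k, 2 / v k := sum_nonneg fun k _ => (div_pos two_pos (hv0 k)).le
    positivity)
  have hsum0 : 0 ≤ ∑ k, 2 / v k := sum_nonneg fun k _ => (div_pos two_pos (hv0 k)).le
  rw [lt_div_iff₀ (by positivity)] at hs1
  have hsv : ∀ k, 2 * s < v k := by
    intro k
    have h1 : 2 / v k ≤ ∑ k, 2 / v k := single_le_sum (f := fun k => 2 / v k)
      (fun i _ => (div_pos two_pos (hv0 i)).le) (mem_univ k)
    have h2 : s * (2 / v k) < 1 := by nlinarith
    have h3 : s * (2 / v k) = 2 * s / v k := by ring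
    rw [h3, div_lt_one (hv0 k)] at h2
    exact h2
  have hs11 : s < 1 := by nlinarith
  obtain ⟨K, hK0, hK1⟩ := exK s hs0 hs11
  set s' := 1 - K * s with hs'
  have hs'S : s' ∈ S := S.sub_mem S.one_mem (S.mul_mem (natCast_mem S K) hsS)
  choose w hwS hw0 hw1 using hw
  have hrow := fun k => row S hS v (w k) (M k) hv hv0 (hM0 k) (hwS k) (hw0 k) (hw1 k) (v k)
    (hv0 k) (hMv k) K
  choose g g1 g2 g3 g4 g5 using hrow
  set e := (finProdFinEquiv : Fin q × Fin 3 ≃ Fin (q * 3)) with he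
  let R0 : Matrix (Fin q) (Fin q × Fin 3) ℝ := fun l p =>
    if p.1 = l then ![v l - s - s', s, s'] p.2 else 0
  let T0 : Matrix (Fin q × Fin 3) (Fin q) ℝ := fun p j =>
    ![g p.1 j, g p.1 j + K * (M p.1 j - v p.1 * g p.1 j), g p.1 j + (M p.1 j - v p.1 * g p.1 j)] p.2
  have hyS : ∀ k j, M k j - v k * g k j ∈ S := fun k j =>
    S.sub_mem (hM k j) (S.mul_mem (hv k) (g1 k j))
  have hRS : ∀ l p, R0 l p ∈ S := by
    rintro l ⟨k, i⟩
    show (if k = l then ![v l - s - s', s, s'] i else 0) ∈ S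
    split_ifs
    · fin_cases i
      · exact S.sub_mem (S.sub_mem (hv l) hsS) hs'S
      · exact hsS
      · exact hs'S
    · exact S.zero_mem
  have hTS : ∀ p j, T0 p j ∈ S := by
    rintro ⟨k, i⟩ j
    show ![g k j, g k j + K * (M k j - v k * g k j), g k j + (M k j - v k * g k j)] i ∈ S
    fin_cases i
    · exact g1 k j
    · exact S.add_mem (g1 k j) (S.mul_mem (natCast_mem S K) (hyS k j))
    · exact S.add_mem (g1 k j) (hyS k j)
  have hpos : ∀ l i, 0 < ![v l - s - s', s, s'] i := by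
    intro l i
    have := hsv l
    fin_cases i
    · show 0 < v l - s - s'
      linarith
    · exact hs0
    · exact hK0
  have hR0 : ∀ l p, 0 ≤ R0 l p := by
    rintro l ⟨k, i⟩
    show 0 ≤ (if k = l then ![v l - s - s', s, s'] i else 0)
    split_ifs
    · exact (hpos l i).le
    · exact le_rfl
  have hT0 : ∀ p j, 0 ≤ T0 p j := by
    rintro ⟨k, i⟩ j
    show 0 ≤ ![g k j, g k j + K * (M k j - v k * g k j), g k j + (M k j - v k * g k j)] i
    fin_cases i
    · exact g3 k j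
    · exact g4 k j
    · exact g5 k j
  have hRT : M = R0 * T0 := by
    ext l j
    rw [Matrix.mul_apply, Fintype.sum_prod_type, sum_eq_single l]
    · rw [Fin.sum_univ_three]
      show M l j = (if l = l then v l - s - s' else 0) * g l j +
        (if l = l then s else 0) * (g l j + K * (M l j - v l * g l j)) +
        (if l = l then s' else 0) * (g l j + (M l j - v l * g l j))
      rw [if_pos rfl, if_pos rfl, if_pos rfl, hs']
      ring
    · intro k _ hk
      refine sum_eq_zero fun i _ => ?_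
      show (if k = l then ![v l - s - s', s, s'] i else 0) * _ = 0
      rw [if_neg hk, zero_mul]
    · intro h
      exact absurd (mem_univ l) h
  have hTv : ∀ p, ∑ j, T0 p j * v j = 1 := by
    rintro ⟨k, i⟩
    have hy : ∑ j, (M k j - v k * g k j) * v j = 0 := by
      have h1 : ∑ j, (M k j - v k * g k j) * v j =
          ∑ j, M k j * v j - v k * ∑ j, g k j * v j := by
        rw [mul_sum, ← sum_sub_distrib]
        exact sum_congr rfl fun j _ => by ring
      rw [h1, hMv, g2, mul_one, sub_self]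
    have hy2 : ∀ t : ℝ, ∑ j, (g k j + t * (M k j - v k * g k j)) * v j = 1 := by
      intro t
      have h1 : ∑ j, (g k j + t * (M k j - v k * g k j)) * v j =
          ∑ j, g k j * v j + t * ∑ j, (M k j - v k * g k j) * v j := by
        rw [mul_sum, ← sum_add_distrib]
        exact sum_congr rfl fun j _ => by ring
      rw [h1, hy, g2, mul_zero, add_zero]
    show ∑ j, ![g k j, g k j + K * (M k j - v k * g k j),
      g k j + (M k j - v k * g k j)] i * v j = 1
    fin_cases i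
    · exact g2 k
    · exact hy2 K
    · have := hy2 1
      simp only [one_mul] at this
      exact this
  refine ⟨q * 3, R0.submatrix id e.symm, T0.submatrix e.symm id, fun i j => hRS _ _,
    fun i j => hTS _ _, fun i j => hR0 _ _, fun i j => hT0 _ _, fun b => ?_, ?_, fun a => hTv _⟩
  · refine ⟨(e.symm b).1, ?_⟩
    show 0 < (if (e.symm b).1 = (e.symm b).1 then
      ![v (e.symm b).1 - s - s', s, s'] (e.symm b).2 else 0)
    rw [if_pos rfl]
    exact hpos _ _
  · rw [Matrix.submatrix_mul_equiv, ← hRT, Matrix.submatrix_id_id]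

end Pool.Agent.Y239.SJ.Sto2
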